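import Pool.Agent.Lib.helper24.GKKEx
import Pool.Agent.Lib.helper24.GKKSmall

set_option autoImplicit false

namespace Pool.Agent.Results.MP_f9eabf_al.Four

open Pool.Agent.Lib.helper24.GKK

/-- The largest `N` such that every GKK tau-matrix of order at most `N` is stable is 4. -/
theorem result : IsGreatest
    {N : ℕ | ∀ n : ℕ, n ≤ N → ∀ A : Matrix (Fin n) (Fin n) ℂ,
      IsP A → WeakSignSym A → IsTau A → IsStable A} 4 := by
  refine ⟨fun n hn A h1 h2 _ => stable_le_four hn A h1 h2, fun N hN => ?_⟩
  by_contra hlt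
  exact exS_not (hN 5 (by omega) _ exS_isP exS_weak exS_isTau)

end Pool.Agent.Results.MP_f9eabf_al.Four
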